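import Mathlib
import Pool.Agent.Tor.Reg.Bridge

/-! The degrees of the faithful transitive permutation representations of the groups of the
regular toroids of all ranks at least four. -/

namespace Pool.Agent.Results.MP_3a32dd_al.AllRanks

open Pool.Agent.Tor Pool.Agent.Tor.Reg

/-- The degrees of the faithful transitive permutation representations of the groups of the
regular toroids `{4, 3^(n-2), 4}_(s^k, 0^(n-k))` (for `n ≥ 3`, `k = 1, 2, n` and `s ≥ 2`) and
`{3, 3, 4, 3}_(s^k, 0^(4-k))` (for `k = 1, 2` and `s ≥ 2`). -/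
theorem result :
    (∀ n k s : ℕ, 3 ≤ n → (k = 1 ∨ k = 2 ∨ k = n) → 2 ≤ s →
      Degrees (Gamma (cubic n) (s • cubicSeed n k)) =
        if k = 1 ∧ s = 2 then exceptionalCubic n
        else degreeSet (PointGroup (cubic n)) (cubicSeed n k) s) ∧
    (∀ k s : ℕ, (k = 1 ∨ k = 2) → 2 ≤ s →
      Degrees (Gamma hurwitz (s • hurwitzSeed k)) =
        if k = 1 ∧ s = 2 then exceptionalHurwitz
        else degreeSet (PointGroup hurwitz) (hurwitzSeed k) s) := by
  constructor
  · intro n k s hn hk hs
    split_ifs with h
    · obtain ⟨rfl, rfl⟩ := h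
      exact final_exceptional n
    · exact final_cubic hn hk hs h
  · intro k s hk hs
    split_ifs with h
    · obtain ⟨rfl, rfl⟩ := h
      exact final_exceptional4
    · exact final_hurwitz hk hs h

end Pool.Agent.Results.MP_3a32dd_al.AllRanks
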