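import Mathlib
import Pool.Agent.Tor.STwo2

/-! The degrees of the faithful transitive permutation representations of the groups of all
regular toroids of rank four. -/

namespace Pool.Agent.Results.MP_3a32dd_al.RankFour

open Pool.Agent.Tor

/-- The set of degrees for the regular toroid `{4,3,4}_(s^k, 0^(3-k))`, with `k = 1, 2, 3` and
`s ≥ 2`, in closed form. -/
def degreeSet (k s : ℕ) : Set ℕ :=
  if k = 1 then (if s = 2 then {12, 24, 32, 48, 64, 96, 128, 192, 384} else D1 s)
  else if k = 2 then D2 s else D3 s

/-- For every regular toroid `{4,3,4}_(s^k, 0^(3-k))` of rank four, that is for `k = 1, 2, 3` and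
all `s ≥ 2`, the degrees of the faithful transitive permutation representations of its group are
the numbers in the set `degreeSet k s`. -/
theorem result (k s : ℕ) (hk : k = 1 ∨ k = 2 ∨ k = 3) (hs : 2 ≤ s) :
    Degrees (ToroidGroup 3 k s) = degreeSet k s := by
  unfold degreeSet
  rcases hk with rfl | rfl | rfl
  · rw [if_pos rfl]
    split_ifs with h2
    · subst h2
      exact main_two
    · exact main1 (by omega)
  · rw [if_neg (by norm_num), if_pos rfl]
    exact main2 hs
  · rw [if_neg (by norm_num), if_neg (by norm_num)]
    exact main3 hs

end Pool.Agent.Results.MP_3a32dd_al.RankFour
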